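import Pool.Agent.H18.SAP.Stmts

namespace SAP

open Finset

theorem pig : S_PIG := by
  classical
  intro T n M r hr hs ht hf hT
  let S : Setoid (Fin T) := ⟨r, ⟨hr, fun {a b} h => hs a b h, fun {a b c} h h' => ht a b c h h'⟩⟩
  have hc : Fintype.card (Quotient S) < n := by
    by_contra hcon
    push Not at hcon
    obtain ⟨U, -, hU⟩ := Finset.exists_subset_card_eq
      (s := (Finset.univ : Finset (Quotient S))) (n := n) (by rwa [Finset.card_univ])
    have hinj : Function.Injective (fun q : Quotient S => q.out) := Quotient.out_injective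
    let R : Finset (Fin T) := U.image (fun q : Quotient S => q.out)
    have hR : R.card = n := by
      rw [Finset.card_image_of_injective _ hinj, hU]
    obtain ⟨i, j, hij, h⟩ := hf (R.orderEmbOfFin hR)
    have hi : R.orderEmbOfFin hR i ∈ R := Finset.orderEmbOfFin_mem R hR i
    have hj : R.orderEmbOfFin hR j ∈ R := Finset.orderEmbOfFin_mem R hR j
    obtain ⟨q, -, hq⟩ := Finset.mem_image.1 hi
    obtain ⟨q', -, hq'⟩ := Finset.mem_image.1 hj
    have h1 : q = q' := by
      rw [← Quotient.out_eq q, ← Quotient.out_eq q']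
      apply Quotient.sound
      rw [hq, hq']
      exact h
    apply hij
    apply (R.orderEmbOfFin hR).injective
    rw [← hq, ← hq', h1]
  rcases Nat.eq_zero_or_pos M with hM | hM
  · exact ⟨∅, by simp [hM], by simp⟩
  · have hTpos : 0 < T := lt_of_lt_of_le (Nat.mul_pos (by omega) hM) hT
    have hne : (Finset.univ : Finset (Quotient S)).Nonempty :=
      ⟨Quotient.mk S ⟨0, hTpos⟩, Finset.mem_univ _⟩
    obtain ⟨y, -, hy⟩ := Finset.exists_le_card_fiber_of_mul_le_card_of_maps_to
      (s := (Finset.univ : Finset (Fin T))) (t := (Finset.univ : Finset (Quotient S)))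
      (f := fun a => Quotient.mk S a) (n := M) (fun a _ => Finset.mem_univ _) hne (by
        rw [Finset.card_univ, Finset.card_univ, Fintype.card_fin]
        exact le_trans (Nat.mul_le_mul_right M hc.le) hT)
    obtain ⟨V, hV, hVc⟩ := Finset.exists_subset_card_eq hy
    refine ⟨V, hVc, ?_⟩
    intro a ha b hb
    have h1 := (Finset.mem_filter.1 (hV ha)).2
    have h2 := (Finset.mem_filter.1 (hV hb)).2
    exact Quotient.exact (h1.trans h2.symm)

end SAP
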